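import Pool.Agent.helper17.EXC.SpecRA

/-!
# Row CUB of project EXC
-/

set_option autoImplicit false

open Finset

namespace Pool.Agent.EXC

theorem CUB (hEXF : EXF_stmt) (hUNQ : UNQ_stmt) (hYST : YST_stmt) (hFPU : FPU_stmt) (hDMN : DMN_stmt) (hNBR : NBR_stmt) : CUB_stmt := by
  intro n C _ F _ j0 θ δ hE g hg hcom
  have hnb := (hNBR n C j0 θ δ hE).1
  obtain ⟨hAu, hExE, hEx, _⟩ := hEXF n C F hnb
  obtain ⟨hθpos, _, _, _⟩ := hDMN n C j0 θ δ hE
  have hθ2 := hE.th2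
  have hle : UG C F ≤ GE C F := by
    refine (Subgroup.closure_le _).2 ?_
    rintro h ⟨γ, hγ, _, t, ht⟩
    exact Subgroup.subset_closure ⟨γ, hγ, t, ht⟩
  have h1 : ∀ γ, ip C γ γ = 2 → Pos γ → g (E C γ) = E C γ := by
    intro γ hγ hp
    have hx := hEx (E C γ) (hExE γ hγ)
    obtain ⟨h, _, hh⟩ := hx.2.2.2.2.1 1
    have hU : h ∈ UG C F := Subgroup.subset_closure ⟨γ, hγ, hp, 1, hh⟩
    have hc := hcom h hU
    have hconj : g * h * g⁻¹ = h := by
      rw [← hc, mul_inv_cancel_right]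
    have hg1 : Ex C (g (E C γ)) := hx.2.2.1 g hg
    have hg2 : IsX C (g (E C γ)) 1 h := by
      have h3 := hx.2.2.2.2.2.2.2.1 g hg 1 h hh
      rwa [hconj] at h3
    have h4 := hUNQ n C F j0 θ δ hE (g (E C γ)) (E C γ) 1 h hg1 (hExE γ hγ) hg2 hh
    rw [h4, one_smul]
  have hnθ : ip C (-θ) (-θ) = 2 := neg_root C hθ2
  refine ⟨h1, ?_, ?_⟩
  · intro γ hγ hp hne
    have h2 : fm C (E C γ) (g (E C (-θ))) = fm C (g (E C γ)) (g (E C (-θ))) := by
      rw [h1 γ hγ hp]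
    rw [h2, (hAu g hg).fm, fm_E_E C hγ hnθ, if_neg]
    intro h3
    apply hne
    exact (neg_inj.1 h3).symm
  · obtain ⟨u, hu, β', hβ', c, hc, hgu⟩ := hYST n C F hnb g hg (-θ) hnθ
    have huθ : u (E C θ) = E C θ := (hFPU n C F j0 θ δ hE).1 u hu
    have h2 : fm C (E C θ) (g (E C (-θ))) = 1 := by
      have h3 : fm C (E C θ) (g (E C (-θ))) = fm C (g (E C θ)) (g (E C (-θ))) := by
        rw [h1 θ hθ2 hθpos]
      rw [h3, (hAu g hg).fm, fm_E_E C hθ2 hnθ, if_pos rfl]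
    have h4 : fm C (E C θ) (u (E C β')) = if β' = -θ then 1 else 0 := by
      have h5 : fm C (E C θ) (u (E C β')) = fm C (u (E C θ)) (u (E C β')) := by
        rw [huθ]
      rw [h5, (hAu u (hle hu)).fm, fm_E_E C hθ2 hβ']
    rw [hgu, fm_smul_right, h4] at h2
    by_cases hb : β' = -θ
    · rw [if_pos hb, mul_one] at h2
      refine ⟨u, hu, ?_⟩
      rw [hgu, h2, one_smul, hb]
    · rw [if_neg hb, mul_zero] at h2
      exact absurd h2.symm one_ne_zero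

end Pool.Agent.EXC
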